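import Pool.Agent.Lib.MP_b5021c_nt.IfaceO4V
import Pool.Agent.Lib.MP_b5021c_nt.E.H19.Bpf

/-!
# Board b5, row O4_RAY: the ports of `b` outside `S0`, `S1` are equal modulo `S0`, `S1`
-/

set_option autoImplicit false

namespace Pool.Agent.B5.O4H61

open scoped LaurentPolynomial
open Polynomial
open Pool.Agent.B5

/-- (O4_RAY) -/
theorem o4ray (hSp : SpjS) (hI2 : Inj2S) (hRk : RkS) : O4rayS := by
  intro P L _ _ _ _ _ phi D q f E a p j eta g C S0 S1 e0 e1 i0 h0 T x i1 h1 c n G l b jj e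
    hK hF hFD hs y hy
  have hFP : FP phi D := hK.k.kc.ko.min.fp
  have hi0 : phi S0 i0 = 1 := h0
  have hT : ((T : Ker (co phi i0)) : L) = S1 := hK.hT
  have hi1' : (if phi S0 i1 = 0 then phi (T : L) i1 else 0) = 1 := h1
  have hi1 : phi S0 i1 = 0 := by
    by_contra hne
    rw [if_neg hne] at hi1'
    exact zero_ne_one hi1'
  have hi1S : phi S1 i1 = 1 := by
    rw [if_pos hi1, hT] at hi1'
    exact hi1'
  -- the ports of `b`
  have hbj : (if phi S0 jj = 0 then phi ((b : Ker (co phi i0)) : L) jj else 0) = 1 := hs.bj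
  have hb0 : phi ((b : Ker (co phi i0)) : L) i0 = 0 := b.1.2
  have hjj0 : phi S0 jj = 0 := by
    by_contra hne
    rw [if_neg hne] at hbj
    exact zero_ne_one hbj
  have hbjj : phi ((b : Ker (co phi i0)) : L) jj = 1 := by
    rw [if_pos hjj0] at hbj
    exact hbj
  have hbi1 : phi ((b : Ker (co phi i0)) : L) i1 = 0 := by
    have h2 : (if phi S0 i1 = 0 then phi ((b : Ker (co phi i0)) : L) i1 else 0) = 0 := b.2
    rw [if_pos hi1] at h2
    exact h2
  -- full rank
  have hk1 : co (phO phi S0 i0) i1 ≠ 0 := by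
    intro h
    rw [h] at h1
    exact zero_ne_one h1
  have hr : rk (supp (vV phi D S0 e0 e1 i0 h0 T i1 h1)) =
      Module.finrank ℤ (Ker (co (phO phi S0 i0) i1)) := by
    have h2 := (hRk (Ker (co phi i0)) (Ker (co phi i0))).1 (co (phO phi S0 i0) i1) hk1
    have h3 : Module.finrank ℤ (Ker (co phi i0)) =
      rk (supp (vV phi D S0 e0 e1 i0 h0 T i1 h1)) + 1 := hF
    omega
  -- the exponent `b` is in a factor
  have hb00 : b ≠ 0 := by
    intro h
    rw [h] at hbjj
    have h2 : phi (((0 : Ker (co (phO phi S0 i0) i1)) : Ker (co phi i0)) : L) jj = 0 := by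
      change phi 0 jj = 0
      rw [map_zero]; rfl
    rw [h2] at hbjj
    exact zero_ne_one hbjj
  have hbs : b ∈ supp (G l) := by
    change (G l).coeff b ≠ 0
    rw [hs.eq, H71.cst_mul_coeff]
    refine mul_ne_zero hs.u0.ne_zero ?_
    have h2 := H78.coeff_two_right (O := ℤ) (0 : Ker (co (phO phi S0 i0) i1)) b 1
      ((e⁻¹ : (RO ℤ)ˣ) : RO ℤ) hb00
    change ((AddMonoidAlgebra.single 0 1 - AddMonoidAlgebra.single b ((e⁻¹ : (RO ℤ)ˣ) : RO ℤ) :
      AO ℤ (Ker (co (phO phi S0 i0) i1)))).coeff b ≠ 0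
    rw [h2]
    exact neg_ne_zero.mpr (Units.ne_zero _)
  have hbbin := (hFD.ww l b hbs).1
  -- two ports of `b`
  have hport : ∀ i, phi S0 i = 0 → phi S1 i = 0 → phi ((b : Ker (co phi i0)) : L) i ≠ 0 →
      ∀ v : Ker (co (phO phi S0 i0) i1), phi ((v : Ker (co phi i0)) : L) i =
        phi ((v : Ker (co phi i0)) : L) jj := by
    intro i hi0' hi1'' hbi v
    have hiO : i ∈ OO (phO phi S0 i0) T := by
      unfold OO
      rw [Finset.mem_filter]
      refine ⟨Finset.mem_univ _, ?_⟩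
      change (if phi S0 i = 0 then phi (T : L) i else 0) = 0
      rw [if_pos hi0', hT, hi1'']
    have hb1 : phO phi S0 i0 (b : Ker (co phi i0)) i = 1 := by
      rcases hbbin i hiO with h | h
      · exfalso
        apply hbi
        have h2 : (if phi S0 i = 0 then phi ((b : Ker (co phi i0)) : L) i else 0) = 0 := h
        rw [if_pos hi0'] at h2
        exact h2
      · exact h
    have h3 := H19.port_eq hRk hSp hFD hr hs i hiO hb1 v
    have h4 : (if phi S0 i = 0 then phi ((v : Ker (co phi i0)) : L) i else 0) =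
      (if phi S0 jj = 0 then phi ((v : Ker (co phi i0)) : L) jj else 0) := h3
    rw [if_pos hi0', if_pos hjj0] at h4
    exact h4
  -- the projection of `y`
  have hS10 : phi S1 i0 = 0 := by
    have h2 : phi ((T : Ker (co phi i0)) : L) i0 = 0 := T.2
    rw [hT] at h2
    exact h2
  set y2 : L := y - phi y i0 • S0 - phi y i1 • S1 with hy2
  have hy20 : phi y2 i0 = 0 := by
    rw [hy2, map_sub, map_sub, map_zsmul, map_zsmul]
    simp only [Pi.sub_apply, Pi.smul_apply, smul_eq_mul]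
    rw [hi0, hS10]
    ring
  have hy21 : phi y2 i1 = 0 := by
    rw [hy2, map_sub, map_sub, map_zsmul, map_zsmul]
    simp only [Pi.sub_apply, Pi.smul_apply, smul_eq_mul]
    rw [hi1, hi1S]
    ring
  let v1 : Ker (co phi i0) := ⟨y2, hy20⟩
  have hv1 : co (phO phi S0 i0) i1 v1 = 0 := by
    change (if phi S0 i1 = 0 then phi y2 i1 else 0) = 0
    rw [if_pos hi1, hy21]
  let v : Ker (co (phO phi S0 i0) i1) := ⟨v1, hv1⟩
  set y3 : L := y2 - phi y2 jj • ((b : Ker (co phi i0)) : L) with hy3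
  have hout : ∀ i, phi S0 i = 0 → phi S1 i = 0 → phi y3 i = 0 := by
    intro i hi0' hi1''
    have h5 : phi y3 i = phi y2 i - phi y2 jj * phi ((b : Ker (co phi i0)) : L) i := by
      rw [hy3, map_sub, map_zsmul]
      simp only [Pi.sub_apply, Pi.smul_apply, smul_eq_mul]
    by_cases hbi : phi ((b : Ker (co phi i0)) : L) i = 0
    · have h6 : phi y2 i = 0 := by
        rw [hy2, map_sub, map_sub, map_zsmul, map_zsmul]
        simp only [Pi.sub_apply, Pi.smul_apply, smul_eq_mul]
        rw [hi0', hi1'', hy i hi0' hi1'' hbi]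
        ring
      rw [h5, h6, hbi]
      ring
    · have h7 : phi y2 i = phi y2 jj := hport i hi0' hi1'' hbi v
      have h8 : phi ((b : Ker (co phi i0)) : L) i = phi ((b : Ker (co phi i0)) : L) jj :=
        hport i hi0' hi1'' hbi b
      rw [h5, h7, h8, hbjj]
      ring
  have hM := hK.k.mt
  obtain ⟨k, l', hkl⟩ := hI2 ℤ P L phi D S0 S1 (-e0) (-e1) hFP hM.r0 hM.r1 hM.m0 hM.m1 y3 hout
  refine ⟨phi y2 jj, phi y i0 + k, phi y i1 + l', ?_⟩
  have h9 : y = y3 + phi y2 jj • ((b : Ker (co phi i0)) : L) + phi y i0 • S0 + phi y i1 • S1 := by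
    rw [hy3, hy2]
    abel
  rw [add_smul, add_smul]
  calc y = y3 + phi y2 jj • ((b : Ker (co phi i0)) : L) + phi y i0 • S0 + phi y i1 • S1 := h9
    _ = _ := by
        conv_lhs => rw [hkl]
        abel

end Pool.Agent.B5.O4H61
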